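import Pool.Agent.Q304.SH.Semi

/-!
MP_7a28e0_gt, Q1 (answer: no). In ZFC there is a semifilter which is not strongly homogeneous.
-/

namespace Pool.Agent.Results.MP_7a28e0_gt.NotStronglyHomogeneous

open Pool.Agent.Q304.SH

/-- There is a semifilter `S` (a point `x` of the Cantor set `(ℤ/2)^ℕ` stands for the set
`{i | x i ≠ 0}`) with a nonempty clopen subset that is not homeomorphic to `S`. -/
theorem result : ∃ S : Set (ℕ → ZMod 2), S.Nonempty ∧
    (∀ x ∈ S, {i | x i ≠ 0}.Infinite) ∧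
    (∀ x ∈ S, ∀ y : ℕ → ZMod 2, ({i | x i ≠ 0} \ {i | y i ≠ 0}).Finite → y ∈ S) ∧
    ∃ U : Set S, IsClopen U ∧ U.Nonempty ∧ IsEmpty (U ≃ₜ S) := by
  obtain ⟨S, h1, h2, h3, h4⟩ := exists_semifilter
  have e : ∀ x y : ℕ → ZMod 2, {i | x i ≠ 0} \ {i | y i ≠ 0} = {i | x i ≠ 0 ∧ y i = 0} := by
    intro x y
    ext i
    simp
  refine ⟨S, h1, ?_, ?_, {x : S | (x : ℕ → ZMod 2) 0 ≠ 0}, ?_, ?_, h4⟩
  · intro x hx hfin
    apply h2 x hx
    change {i | x i ≠ 0 ∧ (0 : ℕ → ZMod 2) i = 0}.Finite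
    exact hfin.subset fun i hi => hi.1
  · intro x hx y hfin
    rw [e] at hfin
    exact h3 x hx y hfin
  · exact isClopen_halfC.preimage continuous_subtype_val
  · obtain ⟨x, hx⟩ := h1
    refine ⟨⟨fun i => if i = 0 then 1 else x i, h3 x hx _ ?_⟩, ?_⟩
    · refine (Set.finite_singleton 0).subset fun i hi => ?_
      by_contra hne
      have hne' : i ≠ 0 := hne
      have := hi.2
      simp only [hne', if_false] at this
      exact hi.1 this
    · change (if (0 : ℕ) = 0 then (1 : ZMod 2) else x 0) ≠ 0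
      simp

end Pool.Agent.Results.MP_7a28e0_gt.NotStronglyHomogeneous
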